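import Pool.Agent.H100Z.KM

set_option autoImplicit false

open Pool.Agent.H100Z.Defs

/-- There is an attractive set of hyperimmune-free degree that computes no Martin-Löf random set. -/
theorem Pool.Agent.Results.MP_99e598_lc.AAttractiveNoRandom.result :
    ∃ A : ℕ → Bool, Attractive A ∧ HyperimmuneFree A ∧ ∀ R : ℕ → Bool, SetLe R A → ¬ MLRandom R :=
  Pool.Agent.H100Z.KM.final
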